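import Pool.Agent.H534R3.Local
import Pool.Agent.H534R3.PiThree

/-!
# Differences of generalised sets of normal numbers, all degrees

For all multiplicatively independent integers `a, b > 1` and every `k ≥ 0` the set
`N_{a,k} \ N_{b,k}` of the real polynomials `g` of degree at most `k` such that `g(n) a ^ n` is
uniformly distributed modulo one and `g(n) b ^ n` is not, is complete for the class of the
differences of two sets of the third multiplicative class.

The upper bound holds since the set of the parameters with a uniformly distributed sequence is in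
the third multiplicative class when each term of the sequence is continuous in the parameter.  The
lower bound is the continuous reduction from the Baire space for constant polynomials.
-/

set_option autoImplicit false

open Filter Topology

namespace Pool.Agent.Results.MP_df8ac3_lc.AllDegrees

/-- The sequence `x` is uniformly distributed modulo one: for all `0 ≤ s ≤ t ≤ 1` the proportion of
the `n < N` with fractional part of `x n` in `[s, t)` tends to `t - s`. -/
def IsUD (x : ℕ → ℝ) : Prop := ∀ s t : ℝ, 0 ≤ s → s ≤ t → t ≤ 1 →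
  Tendsto
    (fun N : ℕ =>
      (((Finset.range N).filter (fun n => s ≤ Int.fract (x n) ∧ Int.fract (x n) < t)).card : ℝ)
        / (N : ℝ))
    atTop (nhds (t - s))

/-- The value at `n` of the real polynomial of degree at most `k` with the coefficients
`c 0, …, c k`. -/
noncomputable def polyVal {k : ℕ} (c : Fin (k + 1) → ℝ) (n : ℕ) : ℝ :=
  ∑ i : Fin (k + 1), c i * (n : ℝ) ^ (i : ℕ)

/-- The set `N_{a,k}` of the coefficient vectors `c ∈ ℝ^{k+1}` of the polynomials `g` of degree at
most `k` such that `g(n) a ^ n` is uniformly distributed modulo one. -/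
def NormalSet (a k : ℕ) : Set (Fin (k + 1) → ℝ) := {c | IsUD (fun n => polyVal c n * (a : ℝ) ^ n)}

/-- `A` is a countable intersection of countable unions of closed sets. -/
def IsPiThree {X : Type} [TopologicalSpace X] (A : Set X) : Prop :=
  ∃ F : ℕ → ℕ → Set X, (∀ i j, IsClosed (F i j)) ∧ A = ⋂ i, ⋃ j, F i j

/-- `D` is the difference of two sets of the third multiplicative class. -/
def IsDTwo {X : Type} [TopologicalSpace X] (D : Set X) : Prop :=
  ∃ A B : Set X, IsPiThree A ∧ IsPiThree B ∧ D = A \ B

/-- `D` is complete for the class of the differences of two sets of the third multiplicative class: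
it belongs to the class and its complement does not. -/
def IsDTwoComplete {X : Type} [TopologicalSpace X] (D : Set X) : Prop :=
  IsDTwo D ∧ ¬ IsDTwo Dᶜ

theorem piThree_preimage {X Y : Type} [TopologicalSpace X] [TopologicalSpace Y] {f : X → Y}
    (hf : Continuous f) {A : Set Y} (hA : IsPiThree A) : IsPiThree (f ⁻¹' A) := by
  obtain ⟨F, hF, rfl⟩ := hA
  refine ⟨fun i j => f ⁻¹' F i j, fun i j => (hF i j).preimage hf, ?_⟩
  simp only [Set.preimage_iInter, Set.preimage_iUnion]

/-- The set `N_{a,k}` is in the third multiplicative class. -/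
theorem normalSet_piThree (a k : ℕ) : IsPiThree (NormalSet a k) := by
  obtain ⟨F, hF, hFe⟩ := Pool.Agent.H534R3.UDist.ud_piThree
    (fun (c : Fin (k + 1) → ℝ) (n : ℕ) => polyVal c n * (a : ℝ) ^ n)
    (fun n => by unfold polyVal; fun_prop)
  exact ⟨F, hF, hFe⟩

/-- The constant polynomial `ξ`. -/
def constVec (k : ℕ) (ξ : ℝ) : Fin (k + 1) → ℝ := fun i => if i = 0 then ξ else 0

theorem continuous_constVec (k : ℕ) : Continuous (constVec k) := by
  refine continuous_pi fun i => ?_
  unfold constVec
  by_cases h : i = 0
  · simp only [h, if_true]; exact continuous_id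
  · simp only [h, if_false]; exact continuous_const

theorem polyVal_constVec (k : ℕ) (ξ : ℝ) (n : ℕ) : polyVal (constVec k ξ) n = ξ := by
  unfold polyVal constVec
  rw [Finset.sum_eq_single (0 : Fin (k + 1))]
  · simp
  · intro i _ hi
    simp [hi]
  · simp

theorem constVec_mem (a k : ℕ) (ξ : ℝ) :
    constVec k ξ ∈ NormalSet a k ↔ IsUD (fun n => ξ * (a : ℝ) ^ n) := by
  unfold NormalSet
  simp only [Set.mem_ofPred_eq, polyVal_constVec]

/-- For all multiplicatively independent integers `a, b > 1` and every `k`, the set
`N_{a,k} \ N_{b,k}` is complete for the class of the differences of two sets of the third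
multiplicative class. -/
theorem result (a b : ℕ) (ha : 1 < a) (hb : 1 < b)
    (hab : ∀ m n : ℕ, 0 < m → 0 < n → a ^ m ≠ b ^ n) (k : ℕ) :
    IsDTwoComplete (NormalSet a k \ NormalSet b k) := by
  refine ⟨⟨_, _, normalSet_piThree a k, normalSet_piThree b k, rfl⟩, ?_⟩
  rintro ⟨A, B, hA, hB, hAB⟩
  obtain ⟨g, hg, hga, hgb⟩ := Pool.Agent.H534R3.Rota.reduce_pair a b ha hb hab
  have hG : Continuous fun w => constVec k (g w) := (continuous_constVec k).comp hg
  obtain ⟨F, hF, hFe⟩ := piThree_preimage hG hA
  obtain ⟨F', hF', hFe'⟩ := piThree_preimage hG hB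
  refine Pool.Agent.H534R3.Rota.no_dual
    (fun w t => ∀ e, ∃ J, ∀ j, J ≤ j → Pool.Agent.H534R3.Rota.ty j = t → e ≤ w j)
    (fun w t => Iff.rfl) F F' hF hF' ?_
  rw [← hFe, ← hFe', ← Set.preimage_sdiff, ← hAB, Set.preimage_compl]
  congr 1
  ext w
  rw [Set.mem_ofPred_eq, Set.mem_preimage, Set.mem_sdiff, constVec_mem, constVec_mem, ← hga w,
    ← hgb w]
  exact Iff.rfl

end Pool.Agent.Results.MP_df8ac3_lc.AllDegrees
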